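import Pool.Agent.K7.H57.EU.Rays

set_option autoImplicit false

/-!
# There are only finitely many edge-disjoint copies
-/

namespace Pool.Agent.K7.H57.EU

open V Function

/-- the right side of the gate `k` -/
def Rt (k : ℕ) : V → Prop
  | .a k' => k < k'
  | .t k' n => k < k' ∨ (k' = k ∧ (n % 4 = 2 ∨ n % 4 = 3))
  | .s k' j => k < k' ∨ (k' = k ∧ j % 2 = 1)
  | .w k' _ => k < k'
  | _ => False

/-- the edges from the left side to the right side -/
theorem crossing {k : ℕ} {x y : V} (h : G.Adj x y) (hu : x ≠ u) (hx : ¬ Rt k x) (hy : Rt k y) :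
    (∃ n, (x = t k n ∧ y = t k (n + 1)) ∨ (y = t k n ∧ x = t k (n + 1))) ∨
      ∃ l, l < k ∧ x = w k l ∧ y = a (k + 1) := by
  rw [adj_iff] at h
  cases x <;> cases y <;> simp only [E, Rt, or_false, false_or, not_false_iff] at h hx hy <;>
    first
    | (exfalso; exact hu rfl)
    | (exfalso; omega)
    | (rename_i k1 n1 k2 n2
       rcases h with ⟨h1, h2⟩ | ⟨h1, h2⟩
       · obtain rfl : k1 = k := by omega
         subst h1 h2
         exact Or.inl ⟨n1, Or.inl ⟨rfl, rfl⟩⟩
       · obtain rfl : k2 = k := by omega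
         subst h1 h2
         exact Or.inl ⟨n2, Or.inr ⟨rfl, rfl⟩⟩)
    | (rename_i k1 l k2
       obtain rfl : k1 = k := by omega
       obtain rfl : k2 = k1 + 1 := by omega
       exact Or.inr ⟨l, by omega, rfl, rfl⟩)

theorem no_infinite (f : ℕ → (H →g G)) (hf : ∀ i, Injective (f i))
    (hd : ∀ i j, i ≠ j → ∀ x y, Uses (f i) x y → ¬ Uses (f j) x y) : False := by
  classical
  choose P S hPS using fun i => exists_pair (f i) (hf i)
  have hbr : ∃ k, ∃ i, Br (f i) k := by
    obtain ⟨k, hk⟩ := (hPS 0).exists_br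
    exact ⟨k, 0, hk⟩
  have hk1 := Nat.find_spec hbr
  have hk2 := fun m hm => Nat.find_min hbr (m := m) hm
  set k := Nat.find hbr
  obtain ⟨i0, N, hN⟩ := hk1
  -- every other copy uses one of finitely many edges
  have hcross : ∀ i, i ≠ i0 → (∃ n, n < N ∧ Uses (f i) (t k n) (t k (n + 1))) ∨
      ∃ l, l < k ∧ Uses (f i) (w k l) (a (k + 1)) := by
    intro i hi
    have hex : ∃ n, Rt k (P i n) := by
      by_contra hcon
      push Not at hcon
      obtain ⟨k', m, N', hN'⟩ := (hPS i).tail_of_bdd (K := k) (by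
        intro n k' hn
        have := hcon n
        rw [hn] at this
        simpa [Rt] using this)
      have hkk : k' < k := by
        have h1 := hcon (N' + (3 * m + 2))
        rw [hN'] at h1
        simp only [Rt] at h1
        have h2 := hcon (N' + 0)
        rw [hN'] at h2
        simp only [Rt] at h2
        by_contra h3
        apply h1
        rcases Nat.lt_or_ge k k' with h4 | h4
        · exact Or.inl h4
        · exact Or.inr ⟨by omega, Or.inl (by omega)⟩
      exact hk2 k' hkk ⟨i, (hPS i).br_of_tail hN'⟩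
    have h1 := Nat.find_spec hex
    have h2 := fun m hm => Nat.find_min hex (m := m) hm
    set n0 := Nat.find hex
    rcases hn0 : n0 with _ | n1
    · rw [hn0, (hPS i).P0] at h1
      simp [Rt] at h1
    · have h3 := h2 n1 (by omega)
      rw [hn0] at h1
      have huse := (hPS i).Pu n1
      rcases crossing huse.adj ((hPS i).Pnu n1) h3 h1 with ⟨n, hn⟩ | ⟨l, hl, hx, hy⟩
      · left
        have huse' : Uses (f i) (t k n) (t k (n + 1)) := by
          rcases hn with ⟨hx, hy⟩ | ⟨hx, hy⟩
          · rwa [hx, hy] at huse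
          · rw [hx, hy] at huse
            exact huse.symm
        refine ⟨n, ?_, huse'⟩
        by_contra hcon
        exact hd i i0 hi _ _ huse' (hN n (by omega))
      · right
        rw [hx, hy] at huse
        exact ⟨l, hl, huse⟩
  -- pigeonhole
  have hcol : ∀ i : ℕ, ∃ d : Fin N ⊕ Fin k, Sum.elim
      (fun n : Fin N => Uses (f (i0 + 1 + i)) (t k n) (t k (n + 1)))
      (fun l : Fin k => Uses (f (i0 + 1 + i)) (w k l) (a (k + 1))) d := by
    intro i
    rcases hcross (i0 + 1 + i) (by omega) with ⟨n, hn, h1⟩ | ⟨l, hl, h1⟩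
    · exact ⟨Sum.inl ⟨n, hn⟩, h1⟩
    · exact ⟨Sum.inr ⟨l, hl⟩, h1⟩
  choose d hdd using hcol
  obtain ⟨i, j, hij, he⟩ := Finite.exists_ne_map_eq_of_infinite d
  have h1 := hdd i
  have h2 := hdd j
  rw [← he] at h2
  rcases hdi : d i with n | l
  · rw [hdi] at h1 h2
    exact hd (i0 + 1 + i) (i0 + 1 + j) (by omega) _ _ h1 h2
  · rw [hdi] at h1 h2
    exact hd (i0 + 1 + i) (i0 + 1 + j) (by omega) _ _ h1 h2

end Pool.Agent.K7.H57.EU
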