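import Pool.Agent.K7.H57.EU.Rays

set_option autoImplicit false

/-!
# There are arbitrarily many edge-disjoint copies
-/

namespace Pool.Agent.K7.H57.EU

open V Function

/-- the ray through the gates -/
def Pth (n i m : ℕ) : V :=
  if m < 6 * n then
    (if m % 6 = 0 then a (m / 6) else if m % 6 = 1 then s (m / 6) (2 * i)
      else if m % 6 = 2 then t (m / 6) (4 * i + 1) else if m % 6 = 3 then t (m / 6) (4 * i + 2)
      else if m % 6 = 4 then t (m / 6) (4 * i + 3) else s (m / 6) (2 * i + 1))
  else if (m - 6 * n) % 2 = 0 then a (n + (m - 6 * n) / 2) else w (n + (m - 6 * n) / 2) i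

/-- the copy number `i` -/
def cp (n i : ℕ) : Bool × ℤ → V
  | (false, z) => if z = 0 then v i else if 0 < z then Pth n i (z - 1).toNat
      else if z = -1 then b else r i (-2 - z).toNat
  | (true, z) => if z = 0 then u else if 0 < z then t (n + 2 * i) (z - 1).toNat
      else t (n + 2 * i + 1) (-1 - z).toNat

/-- the left inverse -/
def inv (n : ℕ) : V → Bool × ℤ
  | .v _ => (false, 0)
  | .b => (false, -1)
  | .r _ j => (false, -2 - j)
  | .u => (true, 0)
  | .a k => (false, 1 + if k < n then 6 * (k : ℤ) else 6 * n + 2 * ((k : ℤ) - n))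
  | .s k j => (false, 1 + (6 * (k : ℤ) + if j % 2 = 0 then 1 else 5))
  | .w k _ => (false, 1 + (6 * n + 2 * ((k : ℤ) - n) + 1))
  | .t k j => if k < n then (false, 1 + (6 * (k : ℤ) + 1 + j % 4))
      else if (k - n) % 2 = 0 then (true, 1 + j) else (true, -1 - j)

theorem inv_Pth (n i m : ℕ) : inv n (Pth n i m) = (false, 1 + (m : ℤ)) := by
  unfold Pth
  split_ifs with h1 h2 h3 h4 h5 h6 h7
  · simp only [inv, Prod.mk.injEq, true_and]
    rw [if_pos (by omega)]
    omega
  · simp only [inv, Prod.mk.injEq, true_and]
    rw [if_pos (by omega)]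
    omega
  · simp only [inv]
    rw [if_pos (by omega), Prod.mk.injEq]
    refine ⟨rfl, ?_⟩
    push_cast
    omega
  · simp only [inv]
    rw [if_pos (by omega), Prod.mk.injEq]
    refine ⟨rfl, ?_⟩
    push_cast
    omega
  · simp only [inv]
    rw [if_pos (by omega), Prod.mk.injEq]
    refine ⟨rfl, ?_⟩
    push_cast
    omega
  · simp only [inv, Prod.mk.injEq, true_and]
    rw [if_neg (by omega)]
    omega
  · simp only [inv, Prod.mk.injEq, true_and]
    rw [if_neg (by omega)]
    push_cast
    omega
  · simp only [inv, Prod.mk.injEq, true_and]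
    push_cast
    omega

theorem inv_cp (n i : ℕ) (x : Bool × ℤ) : inv n (cp n i x) = x := by
  obtain ⟨c, z⟩ := x
  cases c with
  | false =>
    unfold cp
    simp only
    split_ifs with h1 h2 h3
    · rw [h1]
      rfl
    · rw [inv_Pth, Prod.mk.injEq]
      refine ⟨rfl, ?_⟩
      omega
    · rw [h3]
      rfl
    · simp only [inv, Prod.mk.injEq, true_and]
      omega
  | true =>
    unfold cp
    simp only
    split_ifs with h1 h2
    · rw [h1]
      rfl
    · simp only [inv]
      rw [if_neg (by omega), if_pos (by omega), Prod.mk.injEq]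
      refine ⟨rfl, ?_⟩
      omega
    · simp only [inv]
      rw [if_neg (by omega), if_neg (by omega), Prod.mk.injEq]
      refine ⟨rfl, ?_⟩
      omega

theorem cp_inj (n i : ℕ) : Injective (cp n i) := Function.LeftInverse.injective (g := inv n) (inv_cp n i)

theorem Pth_adj {n i : ℕ} (hi : i < n) (m : ℕ) : G.Adj (Pth n i m) (Pth n i (m + 1)) := by
  rw [adj_iff]
  unfold Pth
  split_ifs <;> simp only [E, or_false, false_or, and_true] <;> omega

theorem cp_adj_succ {n i : ℕ} (hi : i < n) (c : Bool) (z : ℤ) :
    G.Adj (cp n i (c, z)) (cp n i (c, z + 1)) := by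
  cases c with
  | false =>
    rcases lt_trichotomy z 0 with h | h | h
    · rcases lt_trichotomy z (-2) with h' | h' | h'
      · unfold cp
        simp only
        rw [if_neg (by omega), if_neg (by omega), if_neg (by omega), if_neg (by omega),
          if_neg (by omega), if_neg (by omega), adj_iff]
        simp only [E]
        right
        refine ⟨trivial, by omega⟩
      · subst h'
        simp [cp, adj_iff, E]
      · obtain rfl : z = -1 := by omega
        simp [cp, adj_iff, E]
    · subst h
      have : Pth n i 0 = a 0 := by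
        unfold Pth
        rw [if_pos (by omega)]
        simp
      simp [cp, adj_iff, E, this]
    · have h1 := Pth_adj hi (z - 1).toNat
      unfold cp
      simp only
      rw [if_neg (by omega), if_pos h, if_neg (by omega), if_pos (by omega)]
      rw [show (z - 1).toNat + 1 = (z + 1 - 1).toNat by omega] at h1
      exact h1
  | true =>
    rcases lt_trichotomy z 0 with h | h | h
    · rcases lt_or_eq_of_le (show z ≤ -1 by omega) with h' | h'
      · unfold cp
        simp only
        rw [if_neg (by omega), if_neg (by omega), if_neg (by omega), if_neg (by omega), adj_iff]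
        simp only [E]
        right
        refine ⟨trivial, by omega⟩
      · subst h'
        simp [cp, adj_iff, E]
    · subst h
      simp [cp, adj_iff, E]
    · unfold cp
      simp only
      rw [if_neg (by omega), if_pos h, if_neg (by omega), if_pos (by omega), adj_iff]
      simp only [E]
      left
      refine ⟨trivial, by omega⟩

theorem cp_adj {n i : ℕ} (hi : i < n) {x y : Bool × ℤ} (h : H.Adj x y) :
    G.Adj (cp n i x) (cp n i y) := by
  have key : ∀ x y : Bool × ℤ, ((x.1 = y.1 ∧ x.2 + 1 = y.2) ∨ (x.1 ≠ y.1 ∧ x.2 = 0 ∧ y.2 = 0)) →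
      G.Adj (cp n i x) (cp n i y) := by
    rintro ⟨c, z⟩ ⟨c', z'⟩ h
    simp only at h
    rcases h with ⟨rfl, rfl⟩ | ⟨hc, rfl, rfl⟩
    · exact cp_adj_succ hi _ _
    · cases c <;> cases c' <;> simp_all [cp, adj_iff, E]
  rw [H, SimpleGraph.fromRel_adj] at h
  rcases h.2 with h | h
  · exact key _ _ h
  · exact (key _ _ h).symm

/-- the owner of a vertex -/
def own (n : ℕ) : V → Option ℕ
  | .v i => some i
  | .r i _ => some i
  | .s _ j => some (j / 2)
  | .w _ l => some l
  | .t k j => if k < n then some (j / 4) else some ((k - n) / 2)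
  | _ => none

theorem own_Pth (n i m : ℕ) : own n (Pth n i m) = none ∨ own n (Pth n i m) = some i := by
  unfold Pth
  split_ifs with h1 h2 h3 h4 h5 h6 h7
  · left; rfl
  · right
    simp only [own, Option.some.injEq]
    omega
  · right
    simp only [own]
    rw [if_pos (by omega), Option.some.injEq]
    omega
  · right
    simp only [own]
    rw [if_pos (by omega), Option.some.injEq]
    omega
  · right
    simp only [own]
    rw [if_pos (by omega), Option.some.injEq]
    omega
  · right
    simp only [own, Option.some.injEq]
    omega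
  · left; rfl
  · right; rfl

theorem own_cp (n i : ℕ) (x : Bool × ℤ) : own n (cp n i x) = none ∨ own n (cp n i x) = some i := by
  obtain ⟨c, z⟩ := x
  cases c with
  | false =>
    unfold cp
    simp only
    split_ifs with h1 h2 h3
    · right; rfl
    · exact own_Pth n i _
    · left; rfl
    · right; rfl
  | true =>
    unfold cp
    simp only
    split_ifs with h1 h2
    · left; rfl
    · right
      simp only [own]
      rw [if_neg (by omega), Option.some.injEq]
      omega
    · right
      simp only [own]
      rw [if_neg (by omega), Option.some.injEq]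
      omega

theorem own_adj (n : ℕ) {x y : V} (h : G.Adj x y) : own n x ≠ none ∨ own n y ≠ none := by
  rw [adj_iff] at h
  cases x <;> cases y <;> simp only [E, own, or_self] at h ⊢ <;>
    first
    | (exact absurd h id)
    | (left; exact Option.some_ne_none _)
    | (right; exact Option.some_ne_none _)
    | (left; split_ifs <;> exact Option.some_ne_none _)
    | (right; split_ifs <;> exact Option.some_ne_none _)

/-- the copies are edge-disjoint -/
theorem cp_disj {n i j : ℕ} (hi : i < n) (hij : i ≠ j) {p q p' q' : Bool × ℤ} (h : H.Adj p q) :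
    s(cp n i p, cp n i q) ≠ s(cp n j p', cp n j q') := by
  intro he
  have h1 := own_adj n (cp_adj hi h)
  rw [Sym2.eq_iff] at he
  have key : ∀ x y : Bool × ℤ, cp n i x = cp n j y → own n (cp n i x) = none := by
    intro x y hxy
    by_contra hcon
    have h2 := (own_cp n i x).resolve_left hcon
    rw [hxy] at hcon
    have h3 := (own_cp n j y).resolve_left hcon
    rw [hxy, h3] at h2
    exact hij (Option.some.inj h2).symm
  rcases he with ⟨e1, e2⟩ | ⟨e1, e2⟩
  · rcases h1 with h1 | h1
    · exact h1 (key _ _ e1)
    · exact h1 (key _ _ e2)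
  · rcases h1 with h1 | h1
    · exact h1 (key _ _ e1)
    · exact h1 (key _ _ e2)

/-- the copy as a homomorphism -/
def cpHom (n : ℕ) (i : Fin n) : H →g G where
  toFun := cp n i
  map_rel' := fun h => cp_adj i.2 h

end Pool.Agent.K7.H57.EU
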