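import Mathlib

set_option autoImplicit false

/-!
# Two double rays joined by an edge: a graph with arbitrarily many, but not infinitely many, edge-disjoint
copies

The graph `G` has the vertices

* `u`, `b`, and `v i` (`i ∈ ℕ`), where `v i` is adjacent to `u`, `b` and `a 0`;
* infinitely many rays `r m 0, r m 1, …` attached to `b`;
* `a 0, a 1, a 2, …`, and between `a k` and `a (k + 1)` the gate `k`: a ray `t k 0, t k 1, …` attached to
  `u`, whose vertices `t k (2 j + 1)` are joined by a path `t k (2 j + 1), s k j, a (k + j % 2)` to `a k` or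
  `a (k + 1)`, and `k` further paths `a k, w k l, a (k + 1)`, `l < k`.

In every copy of the graph (two double rays joined by an edge) there are a vertex `v i` and disjoint rays
starting at its three neighbours `u`, `b` and `a 0`. The ray `P` from `a 0` cannot leave the gates. If
it uses from some point on one of the rays `t k`, this gate is broken (for the others). If not, it
passes all vertices `a k`, and then the ray from `u` has to be one of the rays `t k`, so
again a gate is broken. If `k` is the least number of a broken gate, only finitely many further edges lead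
from the left side of the gate `k` to the right side, and every ray `P` uses one of them. So there are only finitely
many copies. But the bound depends on `k`, and there are `n` edge-disjoint copies for every `n`.
-/

namespace Pool.Agent.K7.H57.EU

/-- the vertices -/
inductive V : Type
  | u : V
  | b : V
  | v : ℕ → V
  | r : ℕ → ℕ → V
  | a : ℕ → V
  | t : ℕ → ℕ → V
  | s : ℕ → ℕ → V
  | w : ℕ → ℕ → V

open V

/-- the edges, in one direction -/
def E : V → V → Prop
  | .u, .v _ => True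
  | .b, .v _ => True
  | .a k, .v _ => k = 0
  | .b, .r _ n => n = 0
  | .r m n, .r m' n' => m' = m ∧ n' = n + 1
  | .u, .t _ n => n = 0
  | .t k n, .t k' n' => k' = k ∧ n' = n + 1
  | .t k n, .s k' j => k' = k ∧ n = 2 * j + 1
  | .s k j, .a k' => k' = k + j % 2
  | .a k, .w k' l => k' = k ∧ l < k
  | .w k l, .a k' => k' = k + 1 ∧ l < k
  | _, _ => False

/-- the graph -/
def G : SimpleGraph V where
  Adj x y := E x y ∨ E y x
  symm := ⟨fun _ _ h => h.symm⟩
  loopless := ⟨fun x h => by cases x <;> simp [E] at h⟩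

theorem adj_iff {x y : V} : G.Adj x y ↔ E x y ∨ E y x := Iff.rfl

theorem N_v {i : ℕ} {y : V} (h : G.Adj (v i) y) : y = u ∨ y = b ∨ y = a 0 := by
  rw [adj_iff] at h
  cases y <;> simp_all [E]

theorem N_s {k j : ℕ} {y : V} (h : G.Adj (s k j) y) : y = t k (2 * j + 1) ∨ y = a (k + j % 2) := by
  rw [adj_iff] at h
  cases y <;> simp_all [E]

theorem N_w {k l : ℕ} {y : V} (h : G.Adj (w k l) y) : y = a k ∨ y = a (k + 1) := by
  rw [adj_iff] at h
  cases y <;> simp_all [E]
  omega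

theorem N_r {m n : ℕ} {y : V} (h : G.Adj (r m n) y) :
    y = r m (n + 1) ∨ (n = 0 ∧ y = b) ∨ ∃ n', n = n' + 1 ∧ y = r m n' := by
  rw [adj_iff] at h
  cases y <;> simp_all [E]
  rcases h with h | h
  · left
    exact ⟨h.1, h.2⟩
  · right
    exact ⟨h.2, h.1.symm⟩

theorem N_t {k n : ℕ} {y : V} (h : G.Adj (t k n) y) :
    y = t k (n + 1) ∨ (n = 0 ∧ y = u) ∨ (∃ n', n = n' + 1 ∧ y = t k n') ∨
      ∃ j, n = 2 * j + 1 ∧ y = s k j := by
  rw [adj_iff] at h
  cases y <;> simp_all [E]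
  rcases h with h | h
  · left
    exact ⟨h.1, h.2⟩
  · right
    exact ⟨h.2, h.1.symm⟩

theorem N_u {y : V} (h : G.Adj u y) : (∃ i, y = v i) ∨ ∃ k, y = t k 0 := by
  rw [adj_iff] at h
  cases y <;> simp_all [E]

/-- at least three neighbours -/
def Deg3 (x : V) : Prop := ∃ y1 y2 y3, G.Adj x y1 ∧ G.Adj x y2 ∧ G.Adj x y3 ∧ y1 ≠ y2 ∧ y1 ≠ y3 ∧ y2 ≠ y3

theorem deg3_cases {x : V} (h : Deg3 x) : x = u ∨ x = b ∨ (∃ i, x = v i) ∨ (∃ k, x = a k) ∨
    ∃ k j, x = t k (2 * j + 1) := by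
  obtain ⟨y1, y2, y3, h1, h2, h3, h12, h13, h23⟩ := h
  cases x with
  | u => exact Or.inl rfl
  | b => exact Or.inr (Or.inl rfl)
  | v i => exact Or.inr (Or.inr (Or.inl ⟨i, rfl⟩))
  | a k => exact Or.inr (Or.inr (Or.inr (Or.inl ⟨k, rfl⟩)))
  | r m n =>
    exfalso
    rcases N_r h1 with h1 | ⟨e1, h1⟩ | ⟨n1, e1, h1⟩ <;> rcases N_r h2 with h2 | ⟨e2, h2⟩ | ⟨n2, e2, h2⟩ <;>
      rcases N_r h3 with h3 | ⟨e3, h3⟩ | ⟨n3, e3, h3⟩ <;> subst h1 <;> subst h2 <;> subst h3 <;>
      simp_all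
  | s k j =>
    exfalso
    rcases N_s h1 with h1 | h1 <;> rcases N_s h2 with h2 | h2 <;>
      rcases N_s h3 with h3 | h3 <;> subst h1 <;> subst h2 <;> subst h3 <;> simp_all
  | w k l =>
    exfalso
    rcases N_w h1 with h1 | h1 <;> rcases N_w h2 with h2 | h2 <;>
      rcases N_w h3 with h3 | h3 <;> subst h1 <;> subst h2 <;> subst h3 <;> simp_all
  | t k n =>
    rcases Nat.even_or_odd' n with ⟨j, e | e⟩
    · exfalso
      rcases N_t h1 with h1 | ⟨e1, h1⟩ | ⟨n1, e1, h1⟩ | ⟨j1, e1, h1⟩ <;>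
        rcases N_t h2 with h2 | ⟨e2, h2⟩ | ⟨n2, e2, h2⟩ | ⟨j2, e2, h2⟩ <;>
        rcases N_t h3 with h3 | ⟨e3, h3⟩ | ⟨n3, e3, h3⟩ | ⟨j3, e3, h3⟩ <;>
        subst h1 <;> subst h2 <;> subst h3 <;> simp_all <;> omega
    · exact Or.inr (Or.inr (Or.inr (Or.inr ⟨k, j, by rw [e]⟩)))

theorem center {x y : V} (hx : Deg3 x) (hy : Deg3 y) (h : G.Adj x y) : ∃ i, x = v i ∨ y = v i := by
  rw [adj_iff] at h
  rcases deg3_cases hx with rfl | rfl | ⟨i, rfl⟩ | ⟨k, rfl⟩ | ⟨k, j, rfl⟩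
  · rcases deg3_cases hy with rfl | rfl | ⟨i', rfl⟩ | ⟨k', rfl⟩ | ⟨k', j', rfl⟩ <;> simp_all [E]
  · rcases deg3_cases hy with rfl | rfl | ⟨i', rfl⟩ | ⟨k', rfl⟩ | ⟨k', j', rfl⟩ <;> simp_all [E]
  · exact ⟨i, Or.inl rfl⟩
  · rcases deg3_cases hy with rfl | rfl | ⟨i', rfl⟩ | ⟨k', rfl⟩ | ⟨k', j', rfl⟩ <;> simp_all [E]
  · rcases deg3_cases hy with rfl | rfl | ⟨i', rfl⟩ | ⟨k', rfl⟩ | ⟨k', j', rfl⟩ <;> simp_all [E] <;>
      omega

end Pool.Agent.K7.H57.EU
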