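import Pool.Agent.K7.H57.EU.Graph

set_option autoImplicit false

/-!
# The rays in a copy
-/

namespace Pool.Agent.K7.H57.EU

open V Function

/-- two double rays joined by an edge -/
def H : SimpleGraph (Bool × ℤ) := SimpleGraph.fromRel (fun x y : Bool × ℤ =>
        (x.1 = y.1 ∧ x.2 + 1 = y.2) ∨ (x.1 ≠ y.1 ∧ x.2 = 0 ∧ y.2 = 0))

theorem H_adj_succ (c : Bool) (z : ℤ) : H.Adj (c, z) (c, z + 1) := by
  simp [H, SimpleGraph.fromRel_adj]

theorem H_adj_pred (c : Bool) (z : ℤ) : H.Adj (c, z) (c, z - 1) := by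
  have := (H_adj_succ c (z - 1)).symm
  rwa [sub_add_cancel] at this

theorem H_adj_mid (c : Bool) : H.Adj (c, 0) (!c, 0) := by
  simp [H, SimpleGraph.fromRel_adj]

/-- three rays in `H` -/
def R (c : Bool) (j : Fin 3) (n : ℕ) : Bool × ℤ :=
  if j = 0 then (c, (n : ℤ) + 1) else if j = 1 then (c, -(n : ℤ) - 1) else (!c, (n : ℤ))

theorem R_inj {c : Bool} {j j' : Fin 3} {n n' : ℕ} (h : R c j n = R c j' n') : j = j' ∧ n = n' := by
  fin_cases j <;> fin_cases j' <;> simp [R] at h ⊢ <;> omega

theorem R_ne {c : Bool} {j : Fin 3} {n : ℕ} : R c j n ≠ (c, 0) := by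
  fin_cases j <;> simp [R] <;> omega

theorem R_adj (c : Bool) (j : Fin 3) (n : ℕ) : H.Adj (R c j n) (R c j (n + 1)) := by
  fin_cases j
  · have := H_adj_succ c ((n : ℤ) + 1)
    simpa [R] using this
  · have h1 : R c 1 n = (c, -(n : ℤ) - 1) := by simp [R]
    have h2 : R c 1 (n + 1) = (c, -(n : ℤ) - 1 - 1) := by
      simp [R]
      ring
    change H.Adj (R c 1 n) (R c 1 (n + 1))
    rw [h1, h2]
    exact H_adj_pred c (-(n : ℤ) - 1)
  · have := H_adj_succ (!c) (n : ℤ)
    simpa [R] using this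

theorem R_zero (c : Bool) (j : Fin 3) : H.Adj (c, 0) (R c j 0) := by
  fin_cases j
  · have := H_adj_succ c 0
    simpa [R] using this
  · have := H_adj_pred c 0
    simpa [R] using this
  · have := H_adj_mid c
    simpa [R] using this

/-- the copy uses the edge `x y` -/
def Uses (φ : H →g G) (x y : V) : Prop := ∃ c d, H.Adj c d ∧ φ c = x ∧ φ d = y

theorem Uses.symm {φ : H →g G} {x y : V} (h : Uses φ x y) : Uses φ y x := by
  obtain ⟨c, d, h, hc, hd⟩ := h
  exact ⟨d, c, h.symm, hd, hc⟩

theorem Uses.adj {φ : H →g G} {x y : V} (h : Uses φ x y) : G.Adj x y := by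
  obtain ⟨c, d, h, rfl, rfl⟩ := h
  exact φ.map_adj h

/-- The pair of rays. -/
structure Pair (φ : H →g G) (P S : ℕ → V) : Prop where
  P0 : P 0 = a 0
  S0 : S 0 = u
  Pinj : Injective P
  Sinj : Injective S
  disj : ∀ m n, P m ≠ S n
  Pb : ∀ n, P n ≠ b
  Sb : ∀ n, S n ≠ b
  Pu : ∀ n, Uses φ (P n) (P (n + 1))
  Su : ∀ n, Uses φ (S n) (S (n + 1))

theorem pair_of {φ : H →g G} (hφ : Injective φ) {c : Bool} {p q r : Fin 3} (hpq : p ≠ q) (hpr : p ≠ r)
    (hqr : q ≠ r) (h1 : φ (R c p 0) = a 0) (h2 : φ (R c q 0) = u) (h3 : φ (R c r 0) = b) :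
    ∃ P S : ℕ → V, Pair φ P S := by
  refine ⟨fun n => φ (R c p n), fun n => φ (R c q n), h1, h2, ?_, ?_, ?_, ?_, ?_, ?_, ?_⟩
  · intro m n h
    exact (R_inj (hφ h)).2
  · intro m n h
    exact (R_inj (hφ h)).2
  · intro m n h
    exact hpq (R_inj (hφ h)).1
  · intro n h
    exact hpr (R_inj (hφ (h.trans h3.symm))).1
  · intro n h
    exact hqr (R_inj (hφ (h.trans h3.symm))).1
  · intro n
    exact ⟨_, _, R_adj c p n, rfl, rfl⟩
  · intro n
    exact ⟨_, _, R_adj c q n, rfl, rfl⟩

theorem exists_center (φ : H →g G) (hφ : Injective φ) : ∃ c i, φ (c, 0) = v i := by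
  have hdeg : ∀ c, Deg3 (φ (c, 0)) := by
    intro c
    refine ⟨φ (R c 0 0), φ (R c 1 0), φ (R c 2 0), φ.map_adj (R_zero c 0), φ.map_adj (R_zero c 1),
      φ.map_adj (R_zero c 2), ?_, ?_, ?_⟩
    · intro h
      exact absurd (R_inj (hφ h)).1 (by decide)
    · intro h
      exact absurd (R_inj (hφ h)).1 (by decide)
    · intro h
      exact absurd (R_inj (hφ h)).1 (by decide)
  have hadj : G.Adj (φ (false, 0)) (φ (true, 0)) := φ.map_adj (H_adj_mid false)
  obtain ⟨i, h | h⟩ := center (hdeg false) (hdeg true) hadj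
  · exact ⟨false, i, h⟩
  · exact ⟨true, i, h⟩

theorem exists_pair (φ : H →g G) (hφ : Injective φ) : ∃ P S : ℕ → V, Pair φ P S := by
  obtain ⟨c, i, hc⟩ := exists_center φ hφ
  have hn : ∀ j, φ (R c j 0) = u ∨ φ (R c j 0) = b ∨ φ (R c j 0) = a 0 := by
    intro j
    have := φ.map_adj (R_zero c j)
    rw [hc] at this
    exact N_v this
  have hne : ∀ j j', j ≠ j' → φ (R c j 0) ≠ φ (R c j' 0) := fun j j' hj h => hj (R_inj (hφ h)).1
  have h01 := hne 0 1 (by decide)
  have h02 := hne 0 2 (by decide)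
  have h12 := hne 1 2 (by decide)
  rcases hn 0 with h0 | h0 | h0 <;> rcases hn 1 with h1 | h1 | h1 <;> rcases hn 2 with h2 | h2 | h2
  all_goals first
    | exact absurd (h0.trans h1.symm) h01
    | exact absurd (h0.trans h2.symm) h02
    | exact absurd (h1.trans h2.symm) h12
    | exact pair_of hφ (p := 0) (q := 1) (r := 2) (by decide) (by decide) (by decide) h0 h1 h2
    | exact pair_of hφ (p := 0) (q := 2) (r := 1) (by decide) (by decide) (by decide) h0 h2 h1
    | exact pair_of hφ (p := 1) (q := 0) (r := 2) (by decide) (by decide) (by decide) h1 h0 h2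
    | exact pair_of hφ (p := 1) (q := 2) (r := 0) (by decide) (by decide) (by decide) h1 h2 h0
    | exact pair_of hφ (p := 2) (q := 0) (r := 1) (by decide) (by decide) (by decide) h2 h0 h1
    | exact pair_of hφ (p := 2) (q := 1) (r := 0) (by decide) (by decide) (by decide) h2 h1 h0

/-! ### where the rays go -/

variable {φ : H →g G} {P S : ℕ → V}

theorem Pair.Pnu (h : Pair φ P S) (n : ℕ) : P n ≠ u := by
  rw [← h.S0]
  exact h.disj n 0

theorem Pair.Sna (h : Pair φ P S) (n : ℕ) : S n ≠ a 0 := by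
  rw [← h.P0]
  exact (h.disj 0 n).symm

theorem Pair.Pnv (h : Pair φ P S) (n i : ℕ) : P n ≠ v i := by
  intro hn
  rcases n with _ | n
  · rw [h.P0] at hn
    simp at hn
  · have h1 := (h.Pu n).symm.adj
    have h2 := (h.Pu (n + 1)).adj
    rw [hn] at h1 h2
    have e1 : P n = a 0 := by
      rcases N_v h1 with e | e | e
      · exact absurd e (h.Pnu n)
      · exact absurd e (h.Pb n)
      · exact e
    have e2 : P (n + 1 + 1) = a 0 := by
      rcases N_v h2 with e | e | e
      · exact absurd e (h.Pnu _)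
      · exact absurd e (h.Pb _)
      · exact e
    have := h.Pinj (e1.trans e2.symm)
    omega

theorem Pair.Pnr (h : Pair φ P S) (n : ℕ) : ∀ m j, P n ≠ r m j := by
  induction n with
  | zero =>
    intro m j hn
    rw [h.P0] at hn
    simp at hn
  | succ n ih =>
    intro m j hn
    have h1 := (h.Pu n).symm.adj
    rw [hn] at h1
    rcases N_r h1 with e | ⟨_, e⟩ | ⟨_, _, e⟩
    · exact ih _ _ e
    · exact h.Pb n e
    · exact ih _ _ e

theorem Pair.Snv (h : Pair φ P S) (n i : ℕ) : S n ≠ v i := by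
  intro hn
  rcases n with _ | n
  · rw [h.S0] at hn
    simp at hn
  · have h1 := (h.Su n).symm.adj
    have h2 := (h.Su (n + 1)).adj
    rw [hn] at h1 h2
    have e1 : S n = u := by
      rcases N_v h1 with e | e | e
      · exact e
      · exact absurd e (h.Sb n)
      · exact absurd e (h.Sna n)
    have e2 : S (n + 1 + 1) = u := by
      rcases N_v h2 with e | e | e
      · exact e
      · exact absurd e (h.Sb _)
      · exact absurd e (h.Sna _)
    have := h.Sinj (e1.trans e2.symm)
    omega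

/-- A gate is broken by a copy. -/
def Br (φ : H →g G) (k : ℕ) : Prop := ∃ N, ∀ n, N ≤ n → Uses φ (t k n) (t k (n + 1))

/-- If `P` avoids the vertices `a k` from some point on, it ends in one of the rays `t k`. -/
theorem Pair.tail (h : Pair φ P S) {N : ℕ} (hN : ∀ n, N ≤ n → ∀ k, P n ≠ a k) :
    ∃ k m N', ∀ n, P (N' + n) = t k (m + n) := by
  have ht : ∀ n, ∃ k m, P (N + 1 + n) = t k m := by
    intro n
    have h1 := (h.Pu (N + n)).symm.adj
    have h2 := (h.Pu (N + 1 + n)).adj
    rw [show N + n + 1 = N + 1 + n by ring] at h1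
    rcases hx : P (N + 1 + n) with _ | _ | i | ⟨m, j⟩ | k | ⟨k, m⟩ | ⟨k, j⟩ | ⟨k, l⟩
    · exact absurd hx (h.Pnu _)
    · exact absurd hx (h.Pb _)
    · exact absurd hx (h.Pnv _ _)
    · exact absurd hx (h.Pnr _ _ _)
    · exact absurd hx (hN _ (by omega) _)
    · exact ⟨k, m, rfl⟩
    · rw [hx] at h1 h2
      have e1 : P (N + n) = t k (2 * j + 1) := by
        rcases N_s h1 with e | e
        · exact e
        · exact absurd e (hN _ (by omega) _)
      have e2 : P (N + 1 + n + 1) = t k (2 * j + 1) := by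
        rcases N_s h2 with e | e
        · exact e
        · exact absurd e (hN _ (by omega) _)
      have := h.Pinj (e1.trans e2.symm)
      omega
    · rw [hx] at h1
      rcases N_w h1 with e | e
      · exact absurd e (hN _ (by omega) _)
      · exact absurd e (hN _ (by omega) _)
  choose κ μ hκ using ht
  have hstep : ∀ n, κ (n + 1) = κ n ∧ (μ (n + 1) = μ n + 1 ∨ μ n = μ (n + 1) + 1) := by
    intro n
    have h2 := (h.Pu (N + 1 + n)).adj
    rw [hκ n, show N + 1 + n + 1 = N + 1 + (n + 1) by ring, hκ (n + 1)] at h2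
    rcases N_t h2 with e | ⟨_, e⟩ | ⟨n', e', e⟩ | ⟨j, _, e⟩
    · rw [V.t.injEq] at e
      exact ⟨e.1, Or.inl e.2⟩
    · simp at e
    · rw [V.t.injEq] at e
      exact ⟨e.1, Or.inr (by omega)⟩
    · simp at e
  have hk : ∀ n, κ n = κ 0 := by
    intro n
    induction n with
    | zero => rfl
    | succ n ih => rw [(hstep n).1, ih]
  have hinc : ∃ n0, μ (n0 + 1) = μ n0 + 1 := by
    by_contra hcon
    push Not at hcon
    have hdec : ∀ n, μ 0 = μ n + n := by
      intro n
      induction n with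
      | zero => rfl
      | succ n ih =>
        have := (hstep n).2
        have := hcon n
        omega
    have := hdec (μ 0 + 1)
    omega
  obtain ⟨n0, hn0⟩ := hinc
  have hne : ∀ n, μ (n + 2) ≠ μ n := by
    intro n he
    have h1 : P (N + 1 + (n + 2)) = P (N + 1 + n) := by
      rw [hκ, hκ, he, hk (n + 2), hk n]
    have := h.Pinj h1
    omega
  have hup : ∀ n, μ (n0 + n + 1) = μ (n0 + n) + 1 := by
    intro n
    induction n with
    | zero => exact hn0
    | succ n ih =>
      have h1 := (hstep (n0 + n + 1)).2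
      have h2 := hne (n0 + n)
      rw [show n0 + (n + 1) + 1 = n0 + n + 1 + 1 by ring, show n0 + (n + 1) = n0 + n + 1 by ring]
      rcases h1 with h1 | h1
      · exact h1
      · exfalso
        apply h2
        rw [show n0 + n + 2 = n0 + n + 1 + 1 by ring]
        omega
  have hval : ∀ n, μ (n0 + n) = μ n0 + n := by
    intro n
    induction n with
    | zero => rfl
    | succ n ih =>
      have := hup n
      rw [show n0 + (n + 1) = n0 + n + 1 by ring]
      omega
  refine ⟨κ 0, μ n0, N + 1 + n0, fun n => ?_⟩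
  rw [show N + 1 + n0 + n = N + 1 + (n0 + n) by ring, hκ, hk, hval]

theorem Pair.br_of_tail (h : Pair φ P S) {k m N : ℕ} (hN : ∀ n, P (N + n) = t k (m + n)) : Br φ k := by
  refine ⟨m, fun n hn => ?_⟩
  have h1 := h.Pu (N + (n - m))
  rw [hN, show N + (n - m) + 1 = N + (n - m + 1) by ring, hN] at h1
  rw [show m + (n - m) = n by omega, show m + (n - m + 1) = n + 1 by omega] at h1
  exact h1

/-- `P` ends in a ray `t k` if it visits only finitely many `a k`. -/
theorem Pair.tail_of_bdd (h : Pair φ P S) {K : ℕ} (hK : ∀ n k, P n = a k → k ≤ K) :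
    ∃ k m N', ∀ n, P (N' + n) = t k (m + n) := by
  have hfin : {n : ℕ | ∃ k, P n = a k}.Finite := by
    have h1 : {n : ℕ | ∃ k, P n = a k} ⊆ P ⁻¹' (a '' Set.Iic K) := by
      rintro n ⟨k, hk⟩
      exact ⟨k, hK n k hk, hk.symm⟩
    exact Set.Finite.subset (Set.Finite.preimage (h.Pinj.injOn) ((Set.finite_Iic K).image _)) h1
  obtain ⟨N, hN⟩ := hfin.bddAbove
  refine h.tail (N := N + 1) fun n hn k hk => ?_
  have := hN ⟨k, hk⟩
  omega

/-- the position -/
def pos : V → ℕ
  | .a k => 2 * k
  | .t k _ => 2 * k + 1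
  | .s k _ => 2 * k + 1
  | .w k _ => 2 * k + 1
  | _ => 0

theorem pos_step {x y : V} (h : G.Adj x y) (hu : x ≠ u) : pos y ≤ pos x + 1 := by
  rw [adj_iff] at h
  cases x <;> cases y <;> simp_all [E, pos] <;> omega

theorem pos_even {x : V} {k : ℕ} (h : pos x = 2 * k) (hk : 0 < k) : x = a k := by
  cases x <;> simp_all [pos] <;> omega

/-- Every copy breaks a gate. -/
theorem Pair.exists_br (h : Pair φ P S) : ∃ k, Br φ k := by
  by_cases hb : ∃ K, ∀ n k, P n = a k → k ≤ K
  · obtain ⟨K, hK⟩ := hb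
    obtain ⟨k, m, N', hN⟩ := h.tail_of_bdd hK
    exact ⟨k, h.br_of_tail hN⟩
  · push Not at hb
    have hall : ∀ k, ∃ n, P n = a k := by
      intro k
      rcases Nat.eq_zero_or_pos k with rfl | hk
      · exact ⟨0, h.P0⟩
      · obtain ⟨n, k', hn, hk'⟩ := hb k
        have hex : ∃ n, 2 * k ≤ pos (P n) := ⟨n, by rw [hn]; simp [pos]; omega⟩
        have h1 := Nat.find_spec hex
        have h2 := fun m hm => Nat.find_min hex (m := m) hm
        set n0 := Nat.find hex
        rcases hn0 : n0 with _ | n1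
        · rw [hn0, h.P0] at h1
          simp [pos] at h1
          omega
        · have h3 := h2 n1 (by omega)
          rw [hn0] at h1
          have h4 := pos_step (h.Pu n1).adj (h.Pnu n1)
          exact ⟨n1 + 1, pos_even (by omega) hk⟩
    have hSa : ∀ n k, S n ≠ a k := by
      intro n k hn
      obtain ⟨m, hm⟩ := hall k
      exact h.disj m n (hm.trans hn.symm)
    have hS1 : ∃ k, S 1 = t k 0 := by
      have h1 := (h.Su 0).adj
      rw [h.S0] at h1
      rcases N_u h1 with ⟨i, e⟩ | ⟨k, e⟩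
      · exact absurd e (h.Snv _ _)
      · exact ⟨k, e⟩
    obtain ⟨k, hk⟩ := hS1
    have hS : ∀ n, S (n + 1) = t k n := by
      intro n
      induction n using Nat.strong_induction_on with
      | _ n ih =>
        rcases n with _ | n
        · exact hk
        · have h1 := (h.Su (n + 1)).adj
          rw [ih n (by omega)] at h1
          rcases N_t h1 with e | ⟨e0, e⟩ | ⟨n', e', e⟩ | ⟨j, e', e⟩
          · exact e
          · exfalso
            have := h.Sinj (e.trans h.S0.symm)
            omega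
          · exfalso
            have h2 := ih n' (by omega)
            have := h.Sinj (e.trans h2.symm)
            omega
          · exfalso
            have h2 := (h.Su (n + 1 + 1)).adj
            rw [e] at h2
            rcases N_s h2 with e2 | e2
            · have h3 := ih n (by omega)
              rw [e'] at h3
              have := h.Sinj (e2.trans h3.symm)
              omega
            · exact hSa _ _ e2
    refine ⟨k, 0, fun n _ => ?_⟩
    have h1 := h.Su (n + 1)
    rw [hS n, hS (n + 1)] at h1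
    exact h1

end Pool.Agent.K7.H57.EU
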